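import Pool.Agent.Lib.MP_5684f0_lc.N.Gen

/-! A builder that follows a descending sequence of states on each board and is never injured. -/

namespace Pool.Agent.Lib.MP_5684f0_lc.I

open Filter Topology Set PiNat G T N

variable {D α : Type} [TopologicalSpace D] [DiscreteTopology D] [Inhabited D] {p : Y D → ℕ → α}

theorem build {O N : ℕ → Set (Y D)} {V : ℕ → ℕ → Set (Y D)} {s0 : ℕ} {lt : ℕ → ℕ → Prop}
    {E A U : ℕ → Set (ℕ → Y D)} (hp : Lip id p) (hO : ∀ m, IsOpen (O m))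
    (hV : ∀ m b, IsOpen (V m b)) (hN : ∀ m, N m ⊆ O m ∩ V m s0)
    (hD : ∀ m i j, lt j i → ∀ y ∈ O m ∩ V m i, ∀ l, ∃ y' ∈ O m ∩ V m j, p y' ∈ cylinder (p y) l)
    (hR : ∀ (x : ℕ → Y D) (s l j : ℕ), ∃ w ∈ E j,
      (∀ m < s, w m ∈ cylinder (x m) l) ∧ ∀ m, s ≤ m → w m ∈ N m)
    (hU : ∀ k, PO p (U k)) (hE : ∀ j, ∀ w ∈ E j, ∀ k ≤ j, w ∈ A k → w ∈ U k)
    {C : Kl} (hC : Good C) {u : Cs → ℕ → ℕ → ℕ} (hu : ∀ t, C t _ fun y => u y t) :
    ∃ τ : Str O Unit, (∃ o, τ 0 = fun _ _ _ => o) ∧ (∀ j, C (0 + j) _ (τ j)) ∧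
      ∀ y π (g : ℕ → ℕ), (∀ m, (∀ t, u y t m = s0 ∨ lt (u y t m) s0) ∧
        (∀ t, u y (t + 1) m = u y t m ∨ lt (u y (t + 1) m) (u y t m)) ∧
        ∀ᶠ t in atTop, u y t m = g m) →
      (∀ t, (ans p π t (τ t y ())).Lg (π t) ∧ (ans p π t (τ t y ())).Cn N (π t)) →
      ∃ z, (∀ k, (∀ w : ℕ → Y D, (∀ m, w m ∈ O m) → (∀ m ≤ k, w m ∈ V m (g m)) →
        w ∈ A k) → z ∈ U k) ∧ ∀ t, Agr p z (π t).1 (π t).2 := by
  classical
  let S := {q : Out O × (ℕ → ℕ) × ℕ // ∀ m, (m < q.1.b → cylinder (q.1.x m) q.1.l ⊆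
    V m (q.2.1 m)) ∧ (q.1.b ≤ m → q.2.1 m = s0)}
  let R : S → (ℕ → ℕ) → Mv D → S → Prop := fun s a m s' => s'.1.2.2 = s.1.2.2 + 1 ∧
    s'.1.2.1 = (fun j => if j ≤ s.1.2.2 ∧ lt (a j) (s.1.2.1 j) then a j else s.1.2.1 j) ∧
    Rs p m s'.1.1 ∧
    s.1.1.Lg m ∧ (∀ j < m.2, s'.1.2.1 j = s.1.2.1 j → s'.1.1.x j ∈ cylinder (m.1 j) m.2) ∧
    ∀ k ≤ s.1.2.2, s'.1.1.x ∈ A k → ∀ w', Agr p w' s'.1.1.x s'.1.1.b → w' ∈ U k
  have zone : ∀ (w : ℕ → Y D) (φ : ℕ → ℕ) (s : ℕ), (∀ j, w j ∈ O j ∩ V j (φ j)) →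
      ∃ l, s ≤ l ∧ ∀ j < s, cylinder (w j) l ⊆ O j ∩ V j (φ j) := fun w φ s h => by
    obtain ⟨l, h1, h2⟩ := ((eventually_ge_atTop s).and ((Finset.eventually_all (Finset.range s)).2
      fun m _ => ev_cyl (((hO m).inter (hV m _)).mem_nhds (h m)))).exists
    exact ⟨l, h1, fun m hm => h2 m (Finset.mem_range.2 hm)⟩
  have tot : ∀ (s : S) a m, s.1.1.Lg m ∧ s.1.1.Cn N m → ∃ s', R s a m s' := by
    rintro ⟨⟨o, φ, t⟩, hs⟩ a ⟨W, M⟩ ⟨h1, h2⟩
    dsimp only at hs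
    let φ' : ℕ → ℕ := fun j => if j ≤ t ∧ lt (a j) (φ j) then a j else φ j
    have h0 : ∀ j, W j ∈ O j ∩ V j (φ j) := fun j => ⟨h1.2.1 j, by
      rcases lt_or_ge j o.b with hj | hj
      · exact (hs j).1 hj (h1.1 j hj)
      · simpa [(hs j).2 hj] using (hN j (h2 j hj)).2⟩
    have h3 : ∀ j, ∃ y ∈ O j ∩ V j (φ' j), p y ∈ cylinder (p (W j)) M ∧
        (φ' j = φ j → y = W j) := fun j => by
      by_cases h : φ' j = φ j
      · exact ⟨W j, h ▸ h0 j, self_mem_cylinder _ _, fun _ => rfl⟩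
      · have h4 : j ≤ t ∧ lt (a j) (φ j) := by_contra fun h' => h (if_neg h')
        obtain ⟨y, y1, y2⟩ := hD j _ _ h4.2 _ (h0 j) M
        exact ⟨y, by simpa only [φ', if_pos h4] using y1, y2, fun h' => absurd h' h⟩
    choose y y1 y2 y3 using h3
    obtain ⟨l1, a1, a2⟩ := zone y φ' (max M (t + 1)) y1
    obtain ⟨w, w1, w2, w3⟩ := hR y (max M (t + 1)) l1 t
    have b1 := o.ok.1
    have b2 : o.l ≤ M := h1.2.2
    have w4 : ∀ j, max M (t + 1) ≤ j → φ' j = s0 := fun j hj => by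
      simp [φ', (hs j).2 (by omega), show ¬ j ≤ t by omega]
    have w5 : ∀ j, w j ∈ O j ∩ V j (φ' j) := fun j => by
      rcases lt_or_ge j (max M (t + 1)) with hj | hj
      · exact a2 j hj (w2 j hj)
      · simpa [w4 j hj] using hN j (w3 j hj)
    have w6 : ∀ k, ∃ M', k ≤ t → w ∈ A k → ∀ w', Agr p w' w M' → w' ∈ U k := fun k => by
      by_cases h : k ≤ t ∧ w ∈ A k
      exacts [(hU k w (hE t w w1 k h.1 h.2)).imp fun _ h _ _ => h,
        ⟨0, fun a b => absurd ⟨a, b⟩ h⟩]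
    choose M' hM' using w6
    obtain ⟨l2, c1, c2⟩ := zone w φ' (max (max M (t + 1) + 1) ((Finset.range (t + 1)).sup M')) w5
    refine ⟨⟨⟨⟨w, _, l2, c1, fun j => (w5 j).1, fun j hj => (c2 j hj).trans inter_subset_left⟩,
      φ', t + 1⟩, fun j => ⟨fun hj => (c2 j hj).trans inter_subset_right, fun hj => w4 j ?_⟩⟩,
      rfl, rfl, ⟨fun j hj => cyl_trans (hp (cylinder_anti _ ?_ (w2 j ?_))) (y2 j), ?_⟩, h1,
      fun j hj h => y3 j h ▸ cylinder_anti _ ?_ (w2 j ?_), fun k hk h w' h' => hM' k hk h w'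
        (agr_mono h' (le_max_of_le_right (Finset.le_sup (Finset.mem_range.2 ?_))))⟩
    all_goals dsimp only at *; omega
  obtain ⟨w0, -, -, h0⟩ := hR default 0 0 0
  obtain ⟨τ, t0, t1, t2⟩ := str_of_rel (p := p) (R := R) (Q := fun o m => o.Lg m ∧ o.Cn N m)
    ⟨⟨⟨w0, 0, 0, le_rfl, fun m => (hN m (h0 m (Nat.zero_le m))).1,
      fun m hm => absurd hm (Nat.not_lt_zero m)⟩, fun _ => s0, 0⟩,
      fun m => ⟨fun hm => absurd hm (Nat.not_lt_zero m), fun _ => rfl⟩⟩ (fun s => s.1.1) tot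
    (fun _ _ _ _ h => h.2.2.1) hC hu
  refine ⟨τ, ⟨_, t0⟩, t1, fun y π g hg h => ?_⟩
  obtain ⟨s, s1, hs⟩ := t2 y π h
  choose r1 r2 r3 r4 r5 r6 using hs
  have e1 : ∀ t, (s t).1.2.2 = t ∧ t ≤ (s t).1.1.b := fun t => by
    induction t with
    | zero => rw [s1]; exact ⟨rfl, le_rfl⟩
    | succ t ih =>
      have := (r3 t).2
      have := (r4 t).2.2
      have := (s t).1.1.ok.1
      exact ⟨by rw [r1, ih.1], by omega⟩
  have e0 : ∀ t j, t ≤ j → (s t).1.2.1 j = s0 := fun t j => by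
    induction t with
    | zero => exact fun _ => by rw [s1]
    | succ t ih =>
      intro h
      simp only [r2 t, (e1 t).1, show ¬ j ≤ t by omega, false_and, if_false, ih (by omega)]
  have e2 : ∀ j t, j ≤ t → (s (t + 1)).1.2.1 j = u y t j := fun j t h => by
    have key : ∀ t, j ≤ t → (u y t j = (s t).1.2.1 j ∨ lt (u y t j) ((s t).1.2.1 j)) →
        (s (t + 1)).1.2.1 j = u y t j := fun t h h' => by
      simp only [r2 t, (e1 t).1]
      split_ifs with h''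
      exacts [rfl, (h'.resolve_right fun a => h'' ⟨h, a⟩).symm]
    induction h with
    | refl => exact key j le_rfl (by rw [e0 j j le_rfl]; exact (hg j).1 j)
    | @step t h ih => exact key _ (Nat.le_succ_of_le h) (by rw [ih]; exact (hg j).2.1 t)
  have e3 : ∀ j, ∀ᶠ t in atTop, (s t).1.2.1 j = g j := fun j => by
    obtain ⟨T, hT⟩ := eventually_atTop.1 ((hg j).2.2.and (eventually_ge_atTop j))
    refine eventually_atTop.2 ⟨T + 1, fun t ht => ?_⟩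
    obtain ⟨t, rfl⟩ : ∃ r, t = r + 1 := ⟨t - 1, by omega⟩
    exact (e2 j t (hT t (by omega)).2).trans (hT t (by omega)).1
  have conv : ∀ j k, ∃ e, ∀ᶠ t in atTop, (s t).1.1.x j k = e := fun j k => by
    obtain ⟨T, hT⟩ := eventually_atTop.1 ((e3 j).and (eventually_gt_atTop (max j k)))
    refine ⟨(s T).1.1.x j k, eventually_atTop.2 ⟨T, fun t ht => ?_⟩⟩
    induction ht with
    | refl => rfl
    | @step t ht ih =>
      have a1 := (hT t ht).2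
      have a2 := (e1 t).2
      have a3 := (r4 t).2.2
      have a4 := (s t).1.1.ok.1
      exact ((r5 t j (by omega) ((hT (t + 1) (Nat.le_succ_of_le ht)).1.trans (hT t ht).1.symm) k
        (by omega)).trans ((r4 t).1 j (by omega) k (by omega))).trans ih
  choose z hz using conv
  have ch : ∀ t t', t ≤ t' → (π t).2 ≤ (π t').2 ∧ Agr p (π t').1 (π t).1 (π t).2 := by
    intro t t' ht
    induction ht with
    | refl => exact ⟨le_rfl, fun m _ => self_mem_cylinder _ _⟩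
    | @step k _ ih =>
      have h1 := (r3 k).one hp (r4 (k + 1))
      exact ⟨ih.1.trans h1.1.le, h1.2.trans ih.2 ih.1⟩
  have ag : ∀ t, Agr p z (π t).1 (π t).2 := fun t m hm => by
    obtain ⟨t', h1, h2⟩ := ((eventually_gt_atTop t).and
      ((Finset.eventually_all (Finset.range (π t).2)).2 fun k _ => hz m k)).exists
    obtain ⟨t', rfl⟩ : ∃ r, t' = r + 1 := ⟨t' - 1, by omega⟩
    have h3 := ch t t' (Nat.lt_succ_iff.1 h1)
    exact cyl_trans (hp fun k hk => (h2 k (Finset.mem_range.2 hk)).symm)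
      ((r3 t').1.trans h3.2 h3.1 m hm)
  refine ⟨z, fun k hk => ?_, ag⟩
  obtain ⟨t, h1, h2⟩ := ((eventually_gt_atTop k).and
    ((Finset.eventually_all (Finset.range (k + 1))).2 fun j _ => e3 j)).exists
  obtain ⟨t, rfl⟩ : ∃ r, t = r + 1 := ⟨t - 1, by omega⟩
  have a2 := (e1 (t + 1)).2
  have a3 := (r4 (t + 1)).2.2
  have a4 := (s (t + 1)).1.1.ok.1
  refine r6 t k (by rw [(e1 t).1]; omega) (hk _ (s (t + 1)).1.1.ok.2.1 fun m hm => ?_) z
    ((ag (t + 1)).trans (fun m hm => hp (cylinder_anti _ a4 ((r4 (t + 1)).1 m hm))) (by omega))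
  rw [← h2 m (Finset.mem_range.2 (by omega))]
  exact ((s (t + 1)).2 m).1 (by omega) (self_mem_cylinder _ _)

end Pool.Agent.Lib.MP_5684f0_lc.I
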