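import Pool.Agent.Lib.MP_5684f0_lc.T.Defs

namespace Pool.Agent.Lib.MP_5684f0_lc.I

open Filter

/-- The set `A` is guessed by a process that starts with the ordinal `η` and the guess `b`, lowers
the ordinal at each change, and whose states are decided by sets in `C`. -/
def Pr (C : Set (Set Cs)) (η : Ordinal.{0}) (b : Bool) (A : Set Cs) : Prop :=
  ∃ st : Cs → ℕ → Ordinal.{0} × Bool, (∀ t u, {y | st y t = u} ∈ C) ∧ ∀ y, st y 0 = (η, b) ∧
    (∀ t, st y (t + 1) = st y t ∨ (st y (t + 1)).1 < (st y t).1) ∧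
    ∀ᶠ t in atTop, (y ∈ A ↔ (st y t).2 = true)

end Pool.Agent.Lib.MP_5684f0_lc.I
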