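import Pool.Agent.Lib.MP_5684f0_lc.I.Ideal

/-! The real of a point of the tower of ideals, and its behaviour on generic points. -/

namespace Pool.Agent.Lib.MP_5684f0_lc.I

open Filter Topology Set PiNat G T T.Bor

/-- The half spaces of the first bits. -/
def nu0 (n : ℕ) : Set (Set Cs) := (fun p : ℕ × Bool => {x : Cs | x p.1 = p.2}) '' (Iic n ×ˢ univ)

theorem based0 : Based nu0 K := by
  refine ⟨fun n => image_mono (prod_mono_left (Iic_subset_Iic.2 n.le_succ)), fun n B hB => ?_,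
    fun n b => ⟨(n, b), ⟨le_refl n, trivial⟩, rfl⟩, difK, isClopen_univ⟩
  rw [← sUnion_range, sUnion_eq_biUnion]
  refine Set.Finite.isClopen_biUnion ((((finite_Iic n).prod finite_univ).image _).insert ∅ |>.subset
    (range_subset_iff.2 hB)) ?_
  rintro _ ⟨k, rfl⟩
  rcases hB k with h | ⟨p, -, h⟩
  · exact h ▸ isClopen_empty
  · exact h ▸ (isClopen_discrete {p.2}).preimage (continuous_apply p.1)

theorem exists_frc {J0 : SId} (h : ¬ J0.N univ) {Ω : Set (SId → SId → SId)} (hΩ : Ω.Countable) :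
    ∃ F : Frc, F.J0 = J0 ∧ ∀ o ∈ Ω, ∀ J ∈ range F.e, ∀ X ∈ range F.e, o J X ∈ range F.e := by
  let Ω' := Ω ∪ range fun n J _ => dfl J n
  let S : ℕ → Set SId := fun n => Nat.rec {J0} (fun _ S => S ∪ ⋃ o ∈ Ω', image2 o S S) n
  have h1 : ∀ n, (S n).Countable := fun n => by
    induction n with
    | zero => exact countable_singleton _
    | succ n ih => exact ih.union ((hΩ.union (countable_range _)).biUnion fun o _ => ih.image2 ih o)
  have h2 : Monotone S := monotone_nat_of_le_succ fun n => subset_union_left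
  obtain ⟨e, he⟩ := (countable_iUnion h1).exists_eq_range ⟨J0, mem_iUnion.2 ⟨0, rfl⟩⟩
  have h3 : ∀ o ∈ Ω', ∀ J ∈ range e, ∀ X ∈ range e, o J X ∈ range e := fun o ho J hJ X hX => by
    rw [← he] at hJ hX ⊢
    obtain ⟨n, hn⟩ := mem_iUnion.1 hJ
    obtain ⟨m, hm⟩ := mem_iUnion.1 hX
    exact mem_iUnion.2 ⟨max n m + 1, Or.inr (mem_biUnion ho
      (mem_image2_of_mem (h2 (le_max_left _ _) hn) (h2 (le_max_right _ _) hm)))⟩
  exact ⟨⟨J0, e, h, he ▸ mem_iUnion.2 ⟨0, rfl⟩, fun J hJ n => h3 _ (Or.inr ⟨n, rfl⟩) J hJ J hJ⟩,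
    rfl, fun o ho => h3 o (Or.inl ho)⟩

namespace Frc

variable (F : Frc)

open Classical in
/-- The real of a point. -/
noncomputable def pr (y : Y ℕ) : Cs := fun n => decide ((F.St y (n + 1)).N {x | x n = false})

theorem pr_vw (y y' : Y ℕ) (n : ℕ) (h : F.vw nu0 y n = F.vw nu0 y' n) : F.pr y n = F.pr y' n := by
  have := (and_congr_right_iff.1 (Set.ext_iff.1 h _)) (based0.half n false)
  exact decide_eq_decide.2 this

theorem null_pr (y : Y ℕ) (n : ℕ) : (F.St y (n + 1)).N {x | x n ≠ F.pr y n} := by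
  by_cases h : (F.St y (n + 1)).N {x | x n = false}
  · simp [pr, h]
  · obtain ⟨b, hb⟩ := (F.inv y n).2.2.2
    cases b
    · exact absurd hb h
    · simpa [pr, h] using hb

/-- The points along which `A` becomes null. -/
def Fo (A : Set Cs) : Set (Y ℕ) := {y | ∃ n, (F.St y n).N A}

theorem op_St (P : SId → Prop) : IsOpen {y | ∃ n, P (F.St y n)} :=
  isOpen_iff_mem_nhds.2 fun y ⟨n, h⟩ => mem_of_superset
    ((cyl_open y n).mem_nhds (self_mem_cylinder y n)) fun _ h' =>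
      ⟨n, by rwa [F.St_congr h' n le_rfl]⟩

theorem excl {A : Set Cs} {y : Y ℕ} (h : y ∈ F.Fo A) (h' : y ∈ F.Fo Aᶜ) : False := by
  obtain ⟨n, hn⟩ := h
  obtain ⟨m, hm⟩ := h'
  exact (F.inv y (max n m)).1.1 (union_compl_self A ▸ (F.St y _).union
    (F.St_mono y (le_max_left _ _) hn) (F.St_mono y (le_max_right _ _) hm))

theorem ext1 (y : Y ℕ) (l : ℕ) {J : SId} (h1 : J ∈ range F.e) (h2 : ¬ J.N univ)
    (h3 : Le (F.St y l) J) : ∃ x ∈ cylinder y l, Le J (F.St x (l + 1)) := by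
  obtain ⟨k, hk⟩ := F.dec J h1 l
  have h0 : Function.update y l k ∈ cylinder y l := fun i hi => Function.update_of_ne hi.ne _ _
  have h4 := ok_dfl h2 l
  refine ⟨_, h0, ?_⟩
  rw [St, Function.update_self, F.St_congr h0 l le_rfl, hk, if_pos ⟨fun _ a => h4.1 (h3 a), h4.2⟩]
  exact h4.1

/-- Closure under adding one null set. -/
def ClA (A : Set Cs) : Prop := ∀ J ∈ range F.e, ext J {A} ∈ range F.e

theorem gen_un {A : ℕ → Set Cs} (h : ∀ k, F.ClA (A k)ᶜ) :
    ∀ᶠ y in residual _, y ∈ F.Fo (⋃ k, A k) ∪ ⋃ k, F.Fo (A k)ᶜ := by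
  refine residual_of_dense_open ((F.op_St (·.N (⋃ k, A k))).union (isOpen_iUnion fun k => F.op_St (·.N (A k)ᶜ)))
   
    (dense_iff_inter_open.2 fun U hU ⟨y, hy⟩ => ?_)
  obtain ⟨l, hl⟩ := (ev_cyl (hU.mem_nhds hy)).exists
  by_cases h1 : ∀ k, (F.St y l).N (A k)
  · exact ⟨y, hy, Or.inl ⟨l, (F.St y l).iUnion A h1⟩⟩
  obtain ⟨k, hk⟩ := not_forall.1 h1
  obtain ⟨x, x1, x2⟩ := F.ext1 y l (h k _ (F.inv y l).1.2)
    (fun a => hk (compl_compl (A k) ▸ ext_one a)) (le_ext _ _)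
  exact ⟨x, hl x1, Or.inr (mem_iUnion.2 ⟨k, l + 1, x2 (mem_ext _ rfl)⟩)⟩

end Frc

theorem gen_borel (A : Set Cs) (hA : MeasurableSet A) : ∃ S : Set (Set Cs), S.Countable ∧
    ∀ F : Frc, (∀ B ∈ S, F.ClA B) → ∀ᶠ y in residual _,
      (F.pr y ∈ A → y ∈ F.Fo Aᶜ) ∧ (F.pr y ∉ A → y ∈ F.Fo A) := by
  rw [MeasurableSpace.pi_eq_generateFrom_projections] at hA
  induction A, hA using MeasurableSpace.generateFrom_induction with
  | hC A hA _ =>
    obtain ⟨n, S, -, rfl⟩ := hA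
    refine ⟨∅, countable_empty, fun F _ => .of_forall fun y => ⟨fun h => ⟨n + 1, ?_⟩,
      fun h => ⟨n + 1, ?_⟩⟩⟩ <;> refine (F.St y _).mono ?_ (F.null_pr y n) <;> intro x hx e
    · exact hx (show x n ∈ S from e ▸ h)
    · exact h (show F.pr y n ∈ S from e ▸ hx)
  | empty => exact ⟨∅, countable_empty, fun F _ => .of_forall fun y =>
      ⟨False.elim, fun _ => ⟨0, (F.St y 0).empty⟩⟩⟩
  | compl A _ h => exact h.imp fun S h => ⟨h.1, fun F hF => (h.2 F hF).mono fun y a =>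
      ⟨fun b => (compl_compl A).symm ▸ a.2 b, fun b => a.1 (not_not.1 b)⟩⟩
  | iUnion A _ h =>
    choose S h1 h2 using h
    refine ⟨(⋃ k, S k) ∪ range fun k => (A k)ᶜ, (countable_iUnion h1).union (countable_range _),
      fun F hF => ?_⟩
    filter_upwards [F.gen_un fun k => hF _ (Or.inr ⟨k, rfl⟩), eventually_countable_forall.2 fun k =>
      h2 k F fun B a => hF B (Or.inl (mem_iUnion.2 ⟨k, a⟩))] with y a b
    refine ⟨fun c => ?_, fun c => a.resolve_right fun d => ?_⟩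
    · obtain ⟨k, hk⟩ := mem_iUnion.1 c
      exact ((b k).1 hk).imp fun n => (F.St y n).mono (compl_subset_compl.2 (subset_iUnion A k))
    · obtain ⟨k, hk⟩ := mem_iUnion.1 d
      exact F.excl ((b k).2 fun e => c (mem_iUnion.2 ⟨k, e⟩)) hk

end Pool.Agent.Lib.MP_5684f0_lc.I
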