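import Pool.Agent.Lib.MP_5684f0_lc.T.Sum
import Pool.Agent.Lib.MP_5684f0_lc.T.Bor

/-! A tower whose points are increasing sequences of sigma-ideals and whose levels are the traces
of the ideals on classes of sets. -/

namespace Pool.Agent.Lib.MP_5684f0_lc.I

open Filter Topology Set PiNat G T T.Bor

/-- The ideal generated by an ideal and a family of sets. -/
def ext (J : SId) (S : Set (Set Cs)) : SId where
  N A := ∃ M, J.N M ∧ ∃ B : ℕ → Set Cs, (∀ n, B n ∈ insert ∅ S) ∧ A ⊆ M ∪ ⋃ n, B n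
  empty := ⟨∅, J.empty, fun _ => ∅, fun _ => Or.inl rfl, empty_subset _⟩
  mono := fun h ⟨M, a, B, b, c⟩ => ⟨M, a, B, b, h.trans c⟩
  iUnion A h := by
    choose M a B b c using h
    refine ⟨_, J.iUnion M a, fun n => B n.unpair.1 n.unpair.2, fun n => b _ _,
      iUnion_subset fun n x hx => (c n hx).imp (fun h => mem_iUnion.2 ⟨n, h⟩) fun h => ?_⟩
    obtain ⟨k, hk⟩ := mem_iUnion.1 h
    exact mem_iUnion.2 ⟨Nat.pair n k, by simpa using hk⟩

/-- Inclusion of ideals. -/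
def Le (J J' : SId) : Prop := ∀ ⦃A⦄, J.N A → J'.N A

theorem le_ext (J : SId) (S : Set (Set Cs)) : Le J (ext J S) := fun A h =>
  ⟨A, h, fun _ => ∅, fun _ => Or.inl rfl, subset_union_left⟩

theorem mem_ext (J : SId) {S : Set (Set Cs)} {A : Set Cs} (h : A ∈ S) : (ext J S).N A :=
  ⟨∅, J.empty, fun _ => A, fun _ => Or.inr h, fun _ hx => Or.inr (mem_iUnion.2 ⟨0, hx⟩)⟩

theorem null_iUnion {X : SId} {S : Set (Set Cs)} (h : ∀ A ∈ S, X.N A) {B : ℕ → Set Cs}
    (hB : ∀ n, B n ∈ insert ∅ S) : X.N (⋃ n, B n) :=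
  X.iUnion B fun n => (hB n).elim (fun e => e ▸ X.empty) (h _)

theorem ext_le {J X : SId} {S : Set (Set Cs)} (h : Le J X) (h' : ∀ A ∈ S, X.N A) :
    Le (ext J S) X := fun _ ⟨_, a, _, b, c⟩ => X.mono c (X.union (h a) (null_iUnion h' b))

theorem ext_one {J : SId} {A : Set Cs} (h : (ext J {A}).N univ) : J.N Aᶜ := by
  obtain ⟨M, a, B, b, c⟩ := h
  refine J.mono (fun x hx => (c (mem_univ x)).resolve_right fun h => ?_) a
  obtain ⟨n, hn⟩ := mem_iUnion.1 h
  rcases b n with e | e <;> rw [e] at hn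
  exacts [hn, hx hn]

/-- The visible sets increase, contain the half spaces and have their unions in `C`. -/
structure Based (ν : ℕ → Set (Set Cs)) (C : Set (Set Cs)) : Prop where
  mono : ∀ n, ν n ⊆ ν (n + 1)
  un : ∀ n (B : ℕ → Set Cs), (∀ k, B k ∈ insert ∅ (ν n)) → (⋃ k, B k) ∈ C
  half : ∀ n b, {x : Cs | x n = b} ∈ ν n
  dif : Dif C
  top : univ ∈ C

theorem Based.sub {ν : ℕ → Set (Set Cs)} {C : Set (Set Cs)} (h : Based ν C) (n : ℕ) : ν n ⊆ C :=
  fun A hA => iUnion_const (ι := ℕ) A ▸ h.un n (fun _ => A) fun _ => Or.inr hA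

theorem Based.trace {ν : ℕ → Set (Set Cs)} {C : Set (Set Cs)} (h : Based ν C) {H X : SId}
    (hx : ∀ U ∈ C, H.N U → X.N U) (n : ℕ) {U : Set Cs} (hU : U ∈ C)
    (hN : (ext H {W ∈ ν n | X.N W}).N U) : X.N U := by
  obtain ⟨M, a, B, b, c⟩ := hN
  have h1 := h.un n B fun k => (b k).imp id fun h => h.1
  refine X.mono (subset_sdiff_union U _) (X.union (hx _ (h.dif _ hU _ h1) (H.mono ?_ a))
    (null_iUnion (fun _ h => h.2) b))
  exact fun x hx => (c hx.1).resolve_right hx.2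

open Classical in
/-- An extension that decides bit `n`. -/
noncomputable def dfl (J : SId) (n : ℕ) : SId :=
  if J.N {x | x n = false} then J else ext J {{x | x n = true}}

/-- A legal step. -/
def Ok (J J' : SId) (n : ℕ) : Prop := Le J J' ∧ ¬ J'.N univ ∧ ∃ b, J'.N {x | x n = b}

theorem ok_dfl {J : SId} (h : ¬ J.N univ) (n : ℕ) : Ok J (dfl J n) n := by
  unfold dfl
  split_ifs with h'
  · exact ⟨fun _ a => a, h, _, h'⟩
  · exact ⟨le_ext _ _, fun a => h' (J.mono (fun x hx => by simpa using hx) (ext_one a)), _,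
      mem_ext _ rfl⟩

/-- A countable family of ideals over a proper ideal. -/
structure Frc where
  J0 : SId
  e : ℕ → SId
  pro : ¬ J0.N univ
  base : J0 ∈ range e
  dec : ∀ J ∈ range e, ∀ n, dfl J n ∈ range e

namespace Frc

variable (F : Frc)

open Classical in
/-- The ideals along a point. -/
noncomputable def St (y : Y ℕ) : ℕ → SId
  | 0 => F.J0
  | n + 1 => if Ok (St y n) (F.e (y n)) n then F.e (y n) else dfl (St y n) n

theorem inv (y : Y ℕ) (n : ℕ) : (¬ (F.St y n).N univ ∧ F.St y n ∈ range F.e) ∧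
    Ok (F.St y n) (F.St y (n + 1)) n := by
  have h : ∀ n, ¬ (F.St y n).N univ → Ok (F.St y n) (F.St y (n + 1)) n := fun n h => by
    rw [St]
    split_ifs with h'
    exacts [h', ok_dfl h n]
  induction n with
  | zero => exact ⟨⟨F.pro, F.base⟩, h 0 F.pro⟩
  | succ n ih =>
    refine ⟨⟨ih.2.2.1, ?_⟩, h _ ih.2.2.1⟩
    rw [St]
    split_ifs
    exacts [mem_range_self _, F.dec _ ih.1.2 n]

theorem St_mono (y : Y ℕ) {n m : ℕ} (h : n ≤ m) : Le (F.St y n) (F.St y m) := by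
  induction h with
  | refl => exact fun _ a => a
  | step _ ih => exact fun _ a => (F.inv y _).2.1 (ih a)

theorem St_congr {y z : Y ℕ} {l : ℕ} (h : y ∈ cylinder z l) : ∀ n ≤ l, F.St y n = F.St z n := by
  intro n hn
  induction n with
  | zero => rfl
  | succ n ih => rw [St, St, ih (by omega), show y n = z n from h n hn]

/-- The trace of the ideals on the visible sets. -/
def vw (ν : ℕ → Set (Set Cs)) (y : Y ℕ) (n : ℕ) : Set (Set Cs) := {U ∈ ν n | (F.St y (n + 1)).N U}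

theorem lip_id (ν : ℕ → Set (Set Cs)) : Lip id (F.vw ν) := fun y z _ h n hn => by
  simp only [vw, F.St_congr (y := y) (z := z) h (n + 1) hn]

theorem lip_vw {ν ν' : ℕ → Set (Set Cs)} (h : ∀ n, ν' n ⊆ ν n) : Lip (F.vw ν) (F.vw ν') :=
  fun _ _ _ h' n hn => Set.ext fun U => and_congr_right fun a =>
    (and_congr_right_iff.1 (Set.ext_iff.1 (h' n hn) U)) (h n a)

/-- Closure under joins with traces. -/
def ClK (μ : Set (Set Cs)) : Prop :=
  ∀ J ∈ range F.e, ∀ X ∈ range F.e, ext J {W ∈ μ | X.N W} ∈ range F.e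

theorem mix {ν : ℕ → Set (Set Cs)} {C : Set (Set Cs)} (hν : Based ν C) (hK : ∀ n, F.ClK (ν n))
    (z x : Y ℕ) (l : ℕ) {H : ℕ → SId} (Hm : ∀ n, Le (H n) (H (n + 1))) (Hl : Le (F.St z l) (H l))
    (HF : ∀ n, H n ∈ range F.e) (hx : ∀ n, l ≤ n → ∀ U ∈ C, (H n).N U → (F.St x (n + 1)).N U) :
    ∃ x' ∈ cylinder z l, ∀ n, l ≤ n → Le (H n) (F.St x' (n + 1)) ∧ F.vw ν x' n = F.vw ν x n := by
  choose k hk using fun n => hK n _ (HF n) _ (F.inv x (n + 1)).1.2
  let x' : Y ℕ := fun n => if n < l then z n else k n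
  have h0 : x' ∈ cylinder z l := fun n hn => if_pos hn
  have h1 : ∀ n, l ≤ n → Le (F.St x' n) (F.e (k n)) → F.St x' (n + 1) = F.e (k n) := fun n hn h => by
    have e : x' n = k n := if_neg hn.not_gt
    obtain ⟨b, hb⟩ := (F.inv x n).2.2.2
    rw [St, e, if_pos ⟨h, fun a => (F.inv x (n + 1)).1.1
      (hν.trace (hx n hn) n hν.top (hk n ▸ a)), b, hk n ▸ mem_ext _ ⟨hν.half n b, hb⟩⟩]
  have h2 : ∀ n, l ≤ n → F.St x' (n + 1) = F.e (k n) := fun n hn => by
    induction hn with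
    | refl => exact h1 l le_rfl fun _ a => hk l ▸ le_ext _ _ (Hl (F.St_congr h0 l le_rfl ▸ a))
    | @step n hn ih =>
      refine h1 _ (Nat.le_succ_of_le hn) ?_
      rw [ih, hk, hk]
      exact ext_le (fun _ a => le_ext _ _ (Hm n a)) fun A a =>
        mem_ext _ ⟨hν.mono n a.1, (F.inv x _).2.1 a.2⟩
  refine ⟨x', h0, fun n hn => ⟨by rw [h2 n hn, hk]; exact le_ext _ _, Set.ext fun U =>
    and_congr_right fun a => ?_⟩⟩
  rw [h2 n hn, hk]
  exact ⟨hν.trace (hx n hn) n (hν.sub n a), fun b => mem_ext _ ⟨a, b⟩⟩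

theorem mix' {ν : ℕ → Set (Set Cs)} {z x x' : Y ℕ} {l : ℕ} (h : x' ∈ cylinder z l)
    (h1 : F.vw ν x ∈ cylinder (F.vw ν z) l) (h2 : ∀ n, l ≤ n → F.vw ν x' n = F.vw ν x n) (M : ℕ) :
    F.vw ν x' ∈ cylinder (F.vw ν x) M := fun n _ => by
  rcases lt_or_ge n l with hn | hn
  exacts [(F.lip_id ν h n hn).trans (h1 n hn).symm, h2 n hn]

end Frc

theorem fin_un {C : Set (Set Cs)} (hd : Dif C) (ht : univ ∈ C) {B : ℕ → Set Cs}
    (hB : ∀ k, B k ∈ C) (s : ℕ) : {y | ∃ k < s, y ∈ B k} ∈ C := by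
  induction s with
  | zero => simpa using hd _ ht _ ht
  | succ s ih =>
    convert hd _ ht _ (hd _ (hd _ ht _ ih) _ (hB s)) using 1
    ext y
    simp only [mem_ofPred_eq, Nat.exists_lt_succ_right, Set.mem_sdiff, mem_univ, true_and]
    rw [not_and_or, not_not, not_not]

theorem un_one {C : Set (Set Cs)} (hd : Dif C) (ht : univ ∈ C) {B : ℕ → Set Cs}
    (hB : ∀ k, B k ∈ insert ∅ C) : (⋃ k, B k) ∈ Cl .one C := by
  refine ⟨fun s => {y | ∃ k < s, y ∈ B k}, fin_un hd ht fun k => (hB k).elim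
    (fun e => by simpa [e] using hd _ ht _ ht) id, fun y => ?_⟩
  by_cases hy : y ∈ ⋃ k, B k
  · obtain ⟨k, hk⟩ := mem_iUnion.1 hy
    exact (eventually_gt_atTop k).mono fun s hs => iff_of_true ⟨k, hs, hk⟩ hy
  · exact .of_forall fun s => iff_of_false (fun ⟨k, _, h⟩ => hy (mem_iUnion.2 ⟨k, h⟩)) hy

theorem tower (L : Lay) : ∀ (c : ℕ) {ν' : ℕ → Set (Set Cs)} {C : Set (Set Cs)}, Based ν' C →
    ∃ (ν : ℕ → Set (Set Cs)) (M : Set (Set (Set Cs))), Based ν (Cl L C) ∧ M.Countable ∧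
      (∀ n, ν' n ⊆ ν n) ∧ (∀ n, n + 1 < c → ν n = ν' n) ∧
      ∀ F : Frc, (∀ μ ∈ M, F.ClK μ) → Tower L c (F.vw ν) (F.vw ν') := by
  induction L with
  | zero => exact fun c ν C h => ⟨ν, ∅, h, countable_empty, fun _ => Subset.rfl, fun _ _ => rfl,
      fun _ _ _ _ _ h => h⟩
  | one =>
    intro c ν' C h
    have h1 : ∀ n, ν' n ⊆ if c ≤ n + 1 then C else ν' n := fun n => by
      split_ifs
      exacts [h.sub n, Subset.rfl]
    refine ⟨fun n => if c ≤ n + 1 then C else ν' n, range ν', ⟨fun n => ?_, fun n B hB =>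
      un_one h.dif h.top fun k => (hB k).imp id fun a => ?_, fun n b => h1 n (h.half n b),
      Cl_dif _ _ h.dif, sub_Cl _ _ h.top⟩, countable_range _, h1, fun n hn => if_neg hn.not_ge,
      fun F hF => ⟨F.lip_vw h1, fun x z l M hc hx => ?_⟩⟩
    · split_ifs
      exacts [Subset.rfl, by omega, h.sub n, h.mono n]
    · split_ifs at a
      exacts [a, h.sub n a]
    obtain ⟨x', a, b⟩ := F.mix h (fun n => hF _ (mem_range_self n)) z x l (H := fun _ => F.St z l)
      (fun _ _ a => a) (fun _ a => a) (fun _ => (F.inv z l).1.2) fun n hn U hU a => by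
        rcases l with _ | l
        · exact F.St_mono x (Nat.zero_le _) a
        · have := Set.ext_iff.1 (hx l (Nat.lt_succ_self l)) U
          simp only [Frc.vw, if_pos hc, mem_ofPred_eq] at this
          exact F.St_mono x (by omega) (this.2 ⟨hU, a⟩).2
    exact ⟨x', a, F.mix' a (F.lip_vw h1 hx) (fun n hn => (b n hn).2) M⟩
  | sum L ih =>
    intro c ν' C h
    choose G M g1 g2 g3 g4 g5 using fun k (ν : {ν // Based ν (It L C k)}) => ih k (c + k + 1) ν.2
    let q : ∀ k, {ν // Based ν (It L C k)} := fun k =>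
      Nat.rec (motive := fun k => {ν // Based ν (It L C k)}) ⟨ν', h⟩ (fun k ν => ⟨G k ν, g1 k ν⟩) k
    have e1 : ∀ n k k', k ≤ k' → (q k).1 n ⊆ (q k').1 n := fun n k k' hk => by
      induction hk with
      | refl => exact Subset.rfl
      | step _ ih => exact ih.trans (g3 _ _ n)
    have e2 : ∀ n k, (q k).1 n ⊆ (q (n + 1)).1 n := fun n k => by
      induction k with
      | zero => exact e1 n _ _ (Nat.zero_le _)
      | succ k ih =>
        rcases le_or_gt k n with hk | hk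
        exacts [e1 n _ _ (by omega), (g4 k (q k) n (by omega)).subset.trans ih]
    refine ⟨fun n => (q (n + 1)).1 n, ⋃ k, M k (q k), ⟨fun n => ((q _).2.mono n).trans (e2 _ _),
      fun n B hB => mem_iUnion.2 ⟨n + 1, (q _).2.un n B hB⟩, fun n => (q _).2.half n,
      Cl_dif _ _ h.dif, sub_Cl _ _ h.top⟩, countable_iUnion fun k => g2 _ _, fun n => e2 n 0,
      fun n hn => ?_, fun F hF => ⟨fun k => F.vw (q k).1, rfl, fun k => ⟨F.lip_vw fun n => e2 n k,
        g5 k (q k) F fun μ a => hF μ (mem_iUnion.2 ⟨k, a⟩)⟩⟩⟩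
    have : ∀ k, (q k).1 n = ν' n := fun k => by
      induction k with
      | zero => rfl
      | succ k ih => exact (g4 k (q k) n (by omega)).trans ih
    exact this _

end Pool.Agent.Lib.MP_5684f0_lc.I
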