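import Pool.Agent.Lib.MP_5684f0_lc.I.Defs
import Pool.Agent.Lib.MP_5684f0_lc.I.Gen
import Pool.Agent.Lib.MP_5684f0_lc.I.Par

/-! An order preserving function lies above a whole difference class or below a function of the
dual class. -/

namespace Pool.Agent.Lib.MP_5684f0_lc.I

open Filter Topology Set PiNat G T T.Bor
open scoped Ordinal

/-- The ideal of a state: wrong value, or a set in `C` that is null for a lower state. -/
noncomputable def E (C : Set (Set Cs)) (J : SId) (B : Cs → Bool) (γ : Ordinal.{0}) : Bool → SId :=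
  fun b => ext J (insert {y | B y ≠ b} {U | U ∈ C ∧ ∃ δ, ∃ _ : δ < γ, ∃ b', (E C J B δ b').N U})
termination_by γ

variable {C : Set (Set Cs)} {J : SId} {B : Cs → Bool}

theorem le_E (γ : Ordinal.{0}) (b : Bool) : Le J (E C J B γ b) := by
  rw [E]; exact le_ext _ _

theorem bad_E (γ : Ordinal.{0}) (b : Bool) : (E C J B γ b).N {y | B y ≠ b} := by
  rw [E]; exact mem_ext _ (Or.inl rfl)

theorem low_E {γ δ : Ordinal.{0}} (h : δ < γ) (b b' : Bool) {U : Set Cs} (hU : U ∈ C)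
    (h' : (E C J B δ b').N U) : (E C J B γ b).N U := by
  rw [E]; exact mem_ext _ (Or.inr ⟨hU, δ, h, b', h'⟩)

theorem down_le {u : ℕ → St} (h : Down u) {t t' : ℕ} (ht : t ≤ t') :
    u t' = u t ∨ (u t').1 < (u t).1 := by
  induction ht with
  | refl => exact Or.inl rfl
  | @step k _ ih =>
    rcases h k with a | a <;> rcases ih with b | b
    exacts [Or.inl (a.trans b), Or.inr (a ▸ b), Or.inr (b ▸ a), Or.inr (a.trans b)]

theorem pr_const (hd : Dif C) (ht : univ ∈ C) (γ : Ordinal.{0}) (b : Bool) :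
    Pr C γ b {_y | b = true} :=
  ⟨fun _ _ => (γ, b), fun _ u => by
    by_cases h : (γ, b) = u
    · simpa [h] using ht
    · simpa [h] using hd _ ht _ ht, fun _ => ⟨rfl, fun _ => Or.inl rfl, .of_forall fun _ => Iff.rfl⟩⟩

theorem proc_E (hd : Dif C) (ht : univ ∈ C) (γ : Ordinal.{0}) : ∀ b U, (E C J B γ b).N U →
    ∃ M A, J.N M ∧ Pr C γ (!b) A ∧ ∀ y ∈ U, y ∉ M → (B y = true ↔ y ∈ A) := by
  classical
  induction γ using WellFoundedLT.induction with
  | ind γ ih =>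
  intro b U hU
  rw [E] at hU
  obtain ⟨M, m, X, x1, x2⟩ := hU
  have h0 : (∅ : Set Cs) ∈ C := by simpa using hd _ ht _ ht
  have h1 : ∀ k, ∃ W ∈ C, ∃ δ b' M A, J.N M ∧ Pr C δ b' A ∧ (W.Nonempty → δ < γ) ∧
      (∀ y ∈ W, y ∉ M → (B y = true ↔ y ∈ A)) ∧ X k ⊆ W ∪ {y | B y ≠ b} := fun k => by
    rcases x1 k with e | e | ⟨a, δ, hδ, b', e⟩
    · exact ⟨∅, h0, 0, b, ∅, _, J.empty, pr_const hd ht 0 b, by simp, by simp, by simp [e]⟩
    · exact ⟨∅, h0, 0, b, ∅, _, J.empty, pr_const hd ht 0 b, by simp, by simp, by simp [e]⟩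
    · obtain ⟨M, A, c1, c2, c3⟩ := ih δ hδ b' _ e
      exact ⟨_, a, δ, _, M, A, c1, c2, fun _ => hδ, c3, subset_union_left⟩
  choose W w1 δ b' M' A w2 w3 w4 w5 w6 using h1
  choose st s1 s2 s3 s4 using w3
  let S : Cs → ℕ → St := fun y t => if h : ∃ k < t, y ∈ W k then st (Nat.find h) y t else (γ, !b)
  have e1 : ∀ y (h : ∃ k, y ∈ W k) t, S y t = if Nat.find h < t then st (Nat.find h) y t
      else (γ, !b) := fun y h t => by
    simp only [S]
    split_ifs with a b b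
    · rw [show Nat.find a = Nat.find h from le_antisymm (Nat.find_min' a ⟨b, Nat.find_spec h⟩)
        (Nat.find_min' h (Nat.find_spec a).2)]
    · exact absurd ((Nat.find_min' h (Nat.find_spec a).2).trans_lt (Nat.find_spec a).1) b
    · exact absurd ⟨_, b, Nat.find_spec h⟩ a
    · rfl
  have e2 : ∀ y, (¬ ∃ k, y ∈ W k) → ∀ t, S y t = (γ, !b) := fun y h t =>
    dif_neg fun ⟨k, _, a⟩ => h ⟨k, a⟩
  refine ⟨M ∪ ⋃ k, M' k, {y | if h : ∃ k, y ∈ W k then y ∈ A (Nat.find h) else (!b) = true},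
    J.union m (J.iUnion _ w2), ⟨S, fun t u => ?_, fun y => ?_⟩, fun y hy hM => ?_⟩
  · have h2 := fin_un hd ht (B := fun k => (W k \ {y | ∃ j < k, y ∈ W j}) \
      (univ \ {y | st k y t = u})) (fun k => hd _ (hd _ (w1 k) _ (fin_un hd ht w1 k)) _
        (hd _ ht _ (s1 k t u))) t
    have h3 : ∀ y, (∃ k < t, y ∈ W k) → (S y t = u ↔ ∃ k < t, y ∈ (W k \ {y | ∃ j < k, y ∈ W j}) \
        (univ \ {y | st k y t = u})) := fun y h => by
      simp only [S, dif_pos h, Set.mem_sdiff, mem_ofPred_eq, mem_univ, true_and, not_not]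
      refine ⟨fun a => ⟨_, (Nat.find_spec h).1, ⟨(Nat.find_spec h).2, fun ⟨j, b, c⟩ =>
        Nat.find_min h b ⟨b.trans (Nat.find_spec h).1, c⟩⟩, a⟩, fun ⟨k, a, b, c⟩ => ?_⟩
      rwa [(Nat.find_eq_iff h).2 ⟨⟨a, b.1⟩, fun j hj d => b.2 ⟨j, hj, d.2⟩⟩]
    by_cases h4 : (γ, !b) = u
    · convert hd _ ht _ (hd _ (fin_un hd ht w1 t) _ h2) using 1
      ext y
      by_cases h : ∃ k < t, y ∈ W k
      · exact (h3 y h).trans ⟨fun a => ⟨trivial, fun c => c.2 a⟩, fun a => by_contra fun c => a.2 ⟨h, c⟩⟩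
      · exact iff_of_true ((dif_neg h).trans h4) ⟨trivial, fun c => h c.1⟩
    · convert h2 using 1
      ext y
      by_cases h : ∃ k < t, y ∈ W k
      · exact h3 y h
      · exact iff_of_false (fun a => h4 ((dif_neg h).symm.trans a)) fun ⟨k, a, b⟩ => h ⟨k, a, b.1.1⟩
  · by_cases h : ∃ k, y ∈ W k
    · simp only [e1 y h, mem_ofPred_eq, dif_pos h]
      refine ⟨if_neg (Nat.not_lt_zero _), fun t => ?_,
        ((eventually_gt_atTop (Nat.find h)).and (s4 _ y)).mono fun t a => by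
          rw [if_pos a.1]; exact a.2⟩
      split_ifs with a c c
      · exact s3 _ y t
      · refine Or.inr (lt_of_le_of_lt ?_ (w4 _ ⟨y, Nat.find_spec h⟩))
        rcases down_le (s3 (Nat.find h) y) (Nat.zero_le (t + 1)) with d | d <;> rw [s2] at d
        exacts [by rw [d], d.le]
      · omega
      · exact Or.inl rfl
    · simp only [e2 y h, mem_ofPred_eq, dif_neg h]
      exact ⟨trivial, fun _ => Or.inl trivial, .of_forall fun _ => trivial⟩
  · simp only [mem_union, mem_iUnion, not_or, not_exists] at hM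
    by_cases h : ∃ k, y ∈ W k
    · simpa only [mem_ofPred_eq, dif_pos h] using w5 _ y (Nat.find_spec h) (hM.2 _)
    · obtain ⟨k, hk⟩ := mem_iUnion.1 ((x2 hy).resolve_left hM.1)
      have : B y ≠ b := (w6 k hk).resolve_left fun a => h ⟨k, a⟩
      simp only [mem_ofPred_eq, dif_neg h]
      revert this
      cases B y <;> cases b <;> simp

/-- Sets covered by countably many pieces on which all bits are guessed from a given state. -/
def cov (C : Set (Set Cs)) (f : Cs → Cs) (η : Ordinal.{0}) (b : Bool) : SId where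
  N A := ∃ Y : ℕ → Set Cs, A ⊆ ⋃ l, Y l ∧ ∀ l a, (Y l).Nonempty →
    ∃ A', Pr C η b A' ∧ ∀ y ∈ Y l, (f y a = true ↔ y ∈ A')
  empty := ⟨fun _ => ∅, empty_subset _, fun _ _ h => absurd h not_nonempty_empty⟩
  mono := fun h ⟨Y, h1, h2⟩ => ⟨Y, h.trans h1, h2⟩
  iUnion A h := by
    choose Y h1 h2 using h
    refine ⟨fun l => Y l.unpair.1 l.unpair.2, iUnion_subset fun n x hx => ?_, fun l => h2 _ _⟩
    obtain ⟨k, hk⟩ := mem_iUnion.1 (h1 n hx)
    exact mem_iUnion.2 ⟨Nat.pair n k, by simpa using hk⟩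

theorem exists_bit (hd : Dif C) (ht : univ ∈ C) {f : Cs → Cs} {η : Ordinal.{0}} {b : Bool}
    (h : Le (cov C f η (!b)) J) (hJ : ¬ J.N univ) : ∃ a, ¬ (E C J (f · a) η b).N univ := by
  by_contra hc
  choose M A h1 h2 h3 using fun a => proc_E hd ht η b _ (not_not.1 (not_exists.1 hc a))
  refine hJ (union_compl_self (⋃ a, M a) ▸ J.union (J.iUnion M h1) (h ⟨fun _ => (⋃ a, M a)ᶜ,
    subset_iUnion (fun _ : ℕ => (⋃ a, M a)ᶜ) 0, fun _ a _ => ⟨_, h2 a, fun y hy =>
      h3 a y trivial fun e => hy (mem_iUnion.2 ⟨a, e⟩)⟩⟩))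

theorem obs {L : Lay} {η : Ordinal.{0}} {b : Bool} {en : ℕ → St} {ix : St → ℕ}
    (hix : ∀ u : St, u.1 ≤ η → en (ix u) = u) {g : Cs → Cs}
    (hg : ∀ a, Pr (Cl L K) η b {x | g x a = true}) : ∃ (u : Cs → ℕ → ℕ → ℕ) (G : Cs → ℕ → ℕ),
      (∀ t, Ms L 0 C0 t _ fun y => u y t) ∧ (∀ y m, (en (G y m)).2 = g y m) ∧ ∀ y m,
      (∀ t, u y t m = ix (η, b) ∨ (en (u y t m)).1 < (en (ix (η, b))).1) ∧
      (∀ t, u y (t + 1) m = u y t m ∨ (en (u y (t + 1) m)).1 < (en (u y t m)).1) ∧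
      ∀ᶠ t in atTop, u y t m = G y m := by
  classical
  choose st s1 s2 s3 s4 using hg
  obtain ⟨hC, -⟩ := Good.ms L 0 good_C0
  choose tm hT using fun q : ℕ => Cl.ms L 0 good_C0
    (fun U (hU : IsClopen U) => ⟨0, fun y _ => mem_nhdsWithin_of_mem_nhds (by
      by_cases h : y ∈ U
      · filter_upwards [hU.2.mem_nhds h] with y' h' using by simp [h, h']
      · filter_upwards [hU.1.isOpen_compl.mem_nhds h] with y' h' using
          propext (iff_of_false h' h))⟩) _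
    (s1 q.unpair.1 q.unpair.2.unpair.1 (en q.unpair.2.unpair.2))
  let φ : ℕ → ℕ → Cs → Prop := fun T q y =>
    tm q ≤ T ∧ st q.unpair.1 y q.unpair.2.unpair.1 = en q.unpair.2.unpair.2
  let kn : Cs → ℕ → ℕ → Prop := fun y T q => if q < T then φ T q y else False
  let τ : (ℕ → Prop) → ℕ → ℕ → ℕ := fun w T m =>
    Nat.findGreatest (fun t => ∃ i, w (Nat.pair m (Nat.pair t i))) T
  let Fn : (ℕ → Prop) → ℕ → ℕ → ℕ := fun w T m =>
    if h : ∃ i, w (Nat.pair m (Nat.pair (τ w T m) i)) then ix (en h.choose) else ix (η, b)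
  have e0 : ∀ y m t, (st m y t).1 ≤ η := fun y m t => by
    rcases down_le (s3 m y) (Nat.zero_le t) with d | d <;> rw [s2] at d
    exacts [by rw [d], d.le]
  have hk : ∀ y T m t i, kn y T (Nat.pair m (Nat.pair t i)) ↔ Nat.pair m (Nat.pair t i) < T ∧
      tm (Nat.pair m (Nat.pair t i)) ≤ T ∧ st m y t = en i := fun y T m t i => by
    simp only [kn, φ, if_false_right, Nat.unpair_pair]
  have e1 : ∀ y T m, Fn (kn y T) T m = ix (st m y (τ (kn y T) T m)) := fun y T m => by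
    simp only [Fn]
    split_ifs with h
    · rw [((hk _ _ _ _ _).1 h.choose_spec).2.2]
    · rw [show τ (kn y T) T m = 0 from by_contra fun a => h (Nat.findGreatest_of_ne_zero rfl a), s2]
  have e2 : ∀ y m T, τ (kn y T) T m ≤ τ (kn y (T + 1)) (T + 1) m := fun y m T =>
    Nat.findGreatest_mono (fun t ⟨i, h⟩ => ⟨i, by
      rw [hk] at h ⊢
      exact ⟨by omega, by omega, h.2.2⟩⟩) T.le_succ
  have e3 : ∀ y m {t t'}, t ≤ t' → ix (st m y t') = ix (st m y t) ∨
      (en (ix (st m y t'))).1 < (en (ix (st m y t))).1 := fun y m t t' h => by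
    rw [hix _ (e0 y m t), hix _ (e0 y m t')]
    exact (down_le (s3 m y) h).imp_left (congrArg ix)
  choose t0 h0 using fun y m => Down.stab (s3 m y)
  refine ⟨fun y T => Fn (kn y T) T, fun y m => ix (st m y (t0 y m)), fun T =>
    hC.fin (φ := φ T) (fun _ => False) (fun w => Fn w T) T fun q _ => ?_, fun y m => ?_,
    fun y m => ⟨fun T => ?_, fun T => ?_, ?_⟩⟩
  · by_cases h : tm q ≤ T
    · exact hC.map (fun a => tm q ≤ T ∧ a) (hC.mono h (hT q))
    · simpa [φ, h] using hC.const T False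
  · obtain ⟨t, h1, h2⟩ := ((eventually_ge_atTop (t0 y m)).and (s4 m y)).exists
    rw [hix _ (e0 y m _), ← h0 y m t h1]
    exact Bool.eq_iff_iff.2 h2.symm
  · simpa only [e1, s2] using e3 y m (Nat.zero_le (τ (kn y T) T m))
  · simpa only [e1] using e3 y m (e2 y m T)
  · obtain ⟨q, hq⟩ : ∃ q, q = Nat.pair m (Nat.pair (t0 y m) (ix (st m y (t0 y m)))) := ⟨_, rfl⟩
    filter_upwards [eventually_gt_atTop (q + tm q + t0 y m)] with T hT
    rw [e1, h0 y m _ (Nat.le_findGreatest (by omega) ⟨ix (st m y (t0 y m)), by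
      rw [hk, ← hq, hix _ (e0 y m _)]
      exact ⟨by omega, by omega, rfl⟩⟩)]

theorem pure0 {L : Lay} {f : Cs → Cs} (hop : OP f)
    (hb : ∀ a, {x | f x a = true} ∈ Cl .one (Cl L K)) {η : Ordinal.{0}} (hη : η < ω₁) (b : Bool) :
    (∀ g : Cs → Cs, (∀ a, Pr (Cl L K) η b {x | g x a = true}) → leCone g f) ∨
      ∃ g : Cs → Cs, (∀ a, Pr (Cl L K) η (!b) {x | g x a = true}) ∧ leCone f g := by
  classical
  have hf : Measurable f := measurable_pi_lambda _ fun n => measurable_to_bool (Cl_borel .one _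
    (Cl_borel L _ fun _ h => IsOpen.measurableSet (IsClopen.isOpen h)) _ (hb n))
  obtain ⟨ν, M, hν, hM, -, -, hT⟩ := tower L 0 based0
  by_cases hc : (cov (Cl L K) f η (!b)).N univ
  · obtain ⟨Y, h1, h2⟩ := hc
    have h3 : ∀ l a, ∃ A', Pr (Cl L K) η (!b) A' ∧ ∀ y ∈ Y l, (f y a = true ↔ y ∈ A') := fun l a =>
      (Y l).eq_empty_or_nonempty.elim (fun e => ⟨_, pr_const hν.dif hν.top η _, by simp [e]⟩) (h2 l a)
    choose A a1 a2 using h3
    refine Or.inr ⟨fun y n => decide (y ∈ A n.unpair.1 n.unpair.2), fun n => by simpa using a1 _ _,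
      fun _ => false, fun y _ => ?_⟩
    obtain ⟨l, hl⟩ := mem_iUnion.1 (h1 (mem_univ y))
    exact ⟨_, tr_iff.2 (.of_computable (computable_pair_left l)), fun n =>
      Bool.eq_iff_iff.2 (by simpa using a2 l n y hl)⟩
  refine Or.inl fun g hg => ?_
  obtain ⟨en, hen⟩ := (countable_lower (succ_lt_omega_one hη)).exists_eq_range
    ⟨(η, b), Order.lt_succ η⟩
  have hix : ∀ u : St, ∃ i, u.1 ≤ η → en i = u := fun u => by
    by_cases h : u.1 ≤ η
    · exact ((hen ▸ Order.lt_succ_of_le h : u ∈ range en)).imp fun _ a _ => a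
    · exact ⟨0, fun a => absurd a h⟩
  choose ix hix using hix
  choose S S1 S2 using fun p : ℕ × Bool => gen_borel {x | f x p.1 ≠ p.2}
    (((measurable_pi_apply p.1).comp hf) (measurableSet_singleton p.2)).compl
  obtain ⟨F, f0, hF⟩ := exists_frc hc (Ω := ((fun μ J X => ext J {W ∈ μ | X.N W}) '' (M ∪ range ν) ∪
    (fun A J _ => ext J {A}) '' ⋃ p, S p) ∪
      range fun (p : ℕ × ℕ) J _ => E (Cl L K) J (f · p.1) (en p.2).1 (en p.2).2)
    ((((hM.union (countable_range _)).image _).union ((countable_iUnion S1).image _)).union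
      (countable_range _))
  have k1 : ∀ μ ∈ M ∪ range ν, F.ClK μ := fun μ h => hF _ (Or.inl (Or.inl ⟨μ, h, rfl⟩))
  have k2 : ∀ a i, ∀ J ∈ range F.e, E (Cl L K) J (f · a) (en i).1 (en i).2 ∈ range F.e :=
    fun a i J h => hF _ (Or.inr ⟨(a, i), rfl⟩) J h J h
  obtain ⟨u, G, u1, u2, u3⟩ := obs hix hg
  have := par hf hop hb (F.lip_id ν) (hT F fun μ h => k1 μ (Or.inl h)) F.pr_vw
    (V := fun a b => F.Fo {x | f x a ≠ b}) (fun a b => F.op_St (·.N {x | f x a ≠ b}))
    ((eventually_countable_forall.2 fun p => S2 p F fun A h J hJ =>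
      hF _ (Or.inl (Or.inr ⟨A, mem_iUnion.2 ⟨p, h⟩, rfl⟩)) J hJ J hJ).mono fun y h a b h' =>
        by_contra fun c => F.excl h' ((h (a, b)).1 c))
    (v := fun i => (en i).2) (lt := fun j i => (en j).1 < (en i).1) (fun A hA ⟨y, hy⟩ => ?_) u1 u3
  · simpa only [u2] using this
  obtain ⟨l, hl⟩ := (ev_cyl (hA.mem_nhds hy)).exists
  obtain ⟨a, ha⟩ := exists_bit hν.dif hν.top (f0 ▸ F.St_mono y (Nat.zero_le l) : Le (cov _ f η (!b)) _) (F.inv y l).1.1
  have e0 := hix (η, b) le_rfl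
  obtain ⟨x0, x1, x2⟩ := F.ext1 y l (k2 a (ix (η, b)) _ (F.inv y l).1.2) (by rwa [e0]) (le_E _ _)
  refine ⟨cylinder y l, _, cyl_open y l, hl, a, fun i => {x | ∃ n,
    Le (E (Cl L K) (F.St y l) (f · a) (en i).1 (en i).2) (F.St x n)}, x0, l + 1, rfl,
    fun x hx => ⟨cyl_trans (cylinder_anti _ l.le_succ hx) x1, l + 1, by
      rwa [F.St_congr hx _ le_rfl]⟩, fun i => ⟨F.op_St _, fun x ⟨n, h⟩ => ⟨n, h (bad_E _ _)⟩⟩,
    fun i j h x ⟨hx, n0, hn⟩ M => ?_⟩
  obtain ⟨x', b1, b2⟩ := F.mix hν (fun n => k1 _ (Or.inr (mem_range_self n))) x x l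
    (H := fun n => if n < n0 then F.St y l else E (Cl L K) (F.St y l) (f · a) (en j).1 (en j).2)
    (fun n => by
      split_ifs
      exacts [fun _ a => a, le_E _ _, by omega, fun _ a => a])
    (by
      rw [F.St_congr hx l le_rfl]
      split_ifs
      exacts [fun _ a => a, le_E _ _])
    (fun n => by
      split_ifs
      exacts [(F.inv y l).1.2, k2 a j _ (F.inv y l).1.2])
    fun n h1 U hU h2 => by
      split_ifs at h2
      · exact F.St_mono x (by omega) (F.St_congr hx l le_rfl ▸ h2)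
      · exact F.St_mono x (by omega) (hn (low_E h _ _ hU h2))
  refine ⟨x', ⟨cyl_trans b1 hx, max l n0 + 1, ?_⟩,
    F.mix' b1 (self_mem_cylinder _ _) (fun n h => (b2 n h).2) M⟩
  simpa only [if_neg (le_max_right l n0).not_gt] using (b2 _ (le_max_left l n0)).1

theorem pure {L : Lay} {f π : Cs → Cs} {c : Cs}
    (hop : ∀ x y, leT c x → leT x y → leM (f x) (f y))
    (hT : ∀ x, leT c x → leT (π x) x ∧ leT x (π x))
    (hb : ∀ a, {x | f (π x) a = true} ∈ Cl .one (Cl L K)) {η : Ordinal.{0}} (hη : η < ω₁) (b : Bool) :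
    (∀ g : Cs → Cs, (∀ a, Pr (Cl L K) η b {x | g x a = true}) → leCone g f) ∨
      ∃ g : Cs → Cs, (∀ a, Pr (Cl L K) η (!b) {x | g x a = true}) ∧ leCone f g := by
  have hc : ∀ x, leT c (π (join x c)) := fun x =>
    (leT_join_right x c).trans (hT _ (leT_join_right x c)).2
  have hi : ∀ (g : Cs → Cs) x, leT c x → leM (g x) (g x) := fun _ _ _ =>
    ⟨id, Computable.id, fun _ => rfl⟩
  refine (pure0 (L := L) (f := fun x => f (π (join x c)))
    (fun x y hxy => hop _ _ (hc x) ((hT _ (leT_join_right x c)).1.trans ((join_leT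
      (hxy.trans (leT_join_left y c)) (leT_join_right y c)).trans (hT _ (leT_join_right y c)).2)))
    (fun a => N.cl_pre (φ := fun x => join x c) .one (N.cl_pre L (C := K)
      fun _ (h : IsClopen _) => h.preimage (continuous_join c)) _ (hb a)) hη b).imp
    (fun h g hg => leCone_of (h g hg) (hi g) fun x hx => hop _ _ (hc x)
      ((hT _ (leT_join_right x c)).1.trans (join_leT (leT_refl x) hx)))
    fun ⟨g, g1, g2⟩ => ⟨g, g1, leCone_of g2 (fun x hx => hop _ _ hx
      ((leT_join_left x c).trans (hT _ (leT_join_right x c)).2)) (hi g)⟩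

end Pool.Agent.Lib.MP_5684f0_lc.I
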