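import Pool.Agent.Lib.MP_5684f0_lc.I.Main

/-! The first difference class is the additive class. -/

namespace Pool.Agent.Lib.MP_5684f0_lc.I

open Filter Set T T.Bor

theorem Pr.compl {C : Set (Set Cs)} {η : Ordinal.{0}} {b : Bool} {A : Set Cs} (h : Pr C η b A) :
    Pr C η (!b) Aᶜ := by
  obtain ⟨st, h1, h2⟩ := h
  refine ⟨fun y t => flip (st y t), fun t u => ?_, fun y => ⟨by simp [(h2 y).1, flip], fun t => ?_,
    (h2 y).2.2.mono fun t h => by simp [h]⟩⟩
  · convert h1 t (flip u) using 3 with y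
    exact ⟨fun h => by rw [← h, flip_flip], fun h => by simp only [h, flip_flip]⟩
  · exact ((h2 y).2.1 t).imp_left fun h => by simp only [h]

theorem pr_one {L : Lay} {A : Set Cs} : Pr (Cl L K) 1 false A ↔ Sg L A := by
  classical
  have hd := Cl_dif L K difK
  have ht : univ ∈ Cl L K := sub_Cl L K isClopen_univ
  refine ⟨fun ⟨st, h1, h2⟩ => ⟨fun t => {y | st y t = (0, true)}, fun t => h1 t _, Set.ext fun y => ?_⟩,
    fun ⟨B, b1, b2⟩ => ⟨fun y t => if ∃ k < t, y ∈ B k then (0, true) else (1, false), fun t u => ?_,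
      fun y => ⟨by simp, fun t => ?_, ?_⟩⟩⟩
  · obtain ⟨a1, a2, a3⟩ := h2 y
    refine ⟨fun hy => ?_, fun hy => ?_⟩
    · obtain ⟨t, ht⟩ := a3.exists
      rcases down_le a2 (Nat.zero_le t) with d | d <;> rw [a1] at d
      · simpa [d] using ht.1 hy
      · exact mem_iUnion.2 ⟨t, Prod.ext (Order.lt_one_iff.1 d) (ht.1 hy)⟩
    · obtain ⟨t, ht⟩ := mem_iUnion.1 hy
      obtain ⟨t', c1, c2⟩ := ((eventually_ge_atTop t).and a3).exists
      rcases down_le a2 c1 with d | d <;> rw [show st y t = (0, true) from ht] at d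
      exacts [c2.2 (by rw [d]), absurd d not_lt_zero]
  · have h0 := fin_un hd ht b1 t
    by_cases e1 : ((0 : Ordinal), true) = u
    · convert h0 using 3 with y
      subst e1
      simp
    by_cases e2 : ((1 : Ordinal), false) = u
    · convert hd _ ht _ h0 using 1
      subst e2
      ext y
      simp
    · convert hd _ ht _ ht using 1
      ext y
      simp only [mem_ofPred_eq]
      split_ifs <;> simp [e1, e2]
  · dsimp only
    split_ifs with a c c
    exacts [Or.inl rfl, Or.inr zero_lt_one, absurd (c.imp fun k h => ⟨by omega, h.2⟩) a, Or.inl rfl]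
  · by_cases hy : y ∈ A
    · obtain ⟨k, hk⟩ := mem_iUnion.1 (b2 ▸ hy : y ∈ ⋃ n, B n)
      exact (eventually_gt_atTop k).mono fun t h => by
        dsimp only
        rw [if_pos ⟨k, h, hk⟩]; simpa
    · exact .of_forall fun t => by
        dsimp only
        rw [if_neg fun ⟨k, _, h⟩ => hy (b2 ▸ mem_iUnion.2 ⟨k, h⟩)]; simpa

theorem pr_one' {L : Lay} {A : Set Cs} : Pr (Cl L K) 1 true A ↔ Sg L Aᶜ :=
  ⟨fun h => pr_one.1 h.compl, fun h => by simpa using (pr_one.2 h).compl⟩

end Pool.Agent.Lib.MP_5684f0_lc.I
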